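import Mathlib
import Pool.Agent.Helper475.ExistsRingequivPow

/-!
# Automorphisms of the field of complex numbers over a countable subfield
-/

set_option autoImplicit false

namespace Pool.Agent.H56F

open Polynomial

/-- the automorphism fixes the elements of `F` -/
def Fixes (F : Subfield ℂ) (s : ℂ ≃+* ℂ) : Prop := ∀ z ∈ F, s z = z

variable {F : Subfield ℂ}

theorem Fixes.symm {s : ℂ ≃+* ℂ} (h : Fixes F s) : Fixes F s.symm := by
  intro z hz
  have := h z hz
  rw [← this, RingEquiv.symm_apply_apply, this]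

theorem Fixes.trans {s t : ℂ ≃+* ℂ} (h : Fixes F s) (h' : Fixes F t) : Fixes F (s.trans t) := by
  intro z hz
  rw [RingEquiv.trans_apply, h z hz, h' z hz]

theorem card_poly [Countable F] : Countable F[X] := by
  have h0 : Cardinal.mk F[X] ≤ max (Cardinal.mk F) Cardinal.aleph0 :=
    Polynomial.cardinalMk_le_max
  have h1 : Cardinal.mk F ≤ Cardinal.aleph0 := Cardinal.mk_le_aleph0_iff.2 ‹_›
  rw [max_eq_right h1] at h0
  exact Cardinal.mk_le_aleph0_iff.1 h0

/-- transcendental numbers are conjugate under the automorphisms over `F` -/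
theorem exists_aut_transc [Countable F] {y z : ℂ} (hy : Transcendental F y)
    (hz : Transcendental F z) : ∃ s : ℂ ≃+* ℂ, Fixes F s ∧ s y = z := by
  have hcard : Cardinal.mk (FractionRing F[X]) ≤ Cardinal.aleph0 := by
    have : Countable (FractionRing F[X]) := by
      have h1 : Countable F[X] := card_poly
      exact (IsLocalization.mk'_surjective (nonZeroDivisors F[X]) (S := FractionRing F[X])
        |> fun h => Function.Surjective.countable (f := fun p : F[X] × nonZeroDivisors F[X] =>
          IsLocalization.mk' (FractionRing F[X]) p.1 p.2) (by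
            intro x
            obtain ⟨⟨a, b⟩, h2⟩ := h x
            exact ⟨(a, b), h2⟩))
    exact Cardinal.mk_le_aleph0_iff.2 this
  have hinj : ∀ {w : ℂ}, Transcendental F w → Function.Injective (aeval w : F[X] →ₐ[F] ℂ) :=
    fun h => transcendental_iff_injective.1 h
  let f : FractionRing F[X] →+* ℂ :=
    IsFractionRing.lift (g := (aeval y : F[X] →ₐ[F] ℂ).toRingHom) (hinj hy)
  let g : FractionRing F[X] →+* ℂ :=
    IsFractionRing.lift (g := (aeval z : F[X] →ₐ[F] ℂ).toRingHom) (hinj hz)
  obtain ⟨s, hs⟩ := H475.exists_ringEquiv_pow_aux2 hcard f g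
  have hf : ∀ p : F[X], f (algebraMap F[X] _ p) = aeval y p := by
    intro p
    change IsFractionRing.lift _ _ = _
    rw [IsFractionRing.lift_algebraMap]
    rfl
  have hg : ∀ p : F[X], g (algebraMap F[X] _ p) = aeval z p := by
    intro p
    change IsFractionRing.lift _ _ = _
    rw [IsFractionRing.lift_algebraMap]
    rfl
  refine ⟨s, ?_, ?_⟩
  · intro c hc
    have h1 := hs (algebraMap F[X] _ (C ⟨c, hc⟩))
    rw [hf, hg, aeval_C, aeval_C] at h1
    exact h1
  · have h1 := hs (algebraMap F[X] _ X)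
    rw [hf, hg, aeval_X, aeval_X] at h1
    exact h1

/-- every number is a quotient of two conjugates of a transcendental number -/
theorem exists_quot [Countable F] {τ c : ℂ} (hτ : Transcendental F τ) (hc : c ≠ 0) :
    ∃ s₁ s₂ : ℂ ≃+* ℂ, Fixes F s₁ ∧ Fixes F s₂ ∧ s₁ τ = c * s₂ τ := by
  obtain ⟨y, hy, hcy⟩ : ∃ y : ℂ, Transcendental F y ∧ Transcendental F (c * y) := by
    by_cases h : IsAlgebraic F c
    · refine ⟨τ, hτ, fun h1 => hτ ?_⟩
      have h2 : IsAlgebraic F (c⁻¹ * (c * τ)) := h.inv.mul h1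
      rwa [inv_mul_cancel_left₀ hc] at h2
    · refine ⟨c, h, fun h1 => h ?_⟩
      have h2 : IsAlgebraic F (c ^ 2) := by rwa [sq]
      exact IsAlgebraic.of_pow (by norm_num) h2
  obtain ⟨s₁, f₁, h1⟩ := exists_aut_transc hτ hcy
  obtain ⟨s₂, f₂, h2⟩ := exists_aut_transc hτ hy
  exact ⟨s₁, s₂, f₁, f₂, by rw [h1, h2]⟩

theorem exists_move_alg [Countable F] {z : ℂ} (hz : IsAlgebraic F z) (hF : z ∉ F) :
    ∃ s : ℂ ≃+* ℂ, Fixes F s ∧ s z ≠ z := by
  have hi : IsIntegral F z := hz.isIntegral
  set p : F[X] := minpoly F z with hp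
  have hirr : Irreducible p := minpoly.irreducible hi
  -- another root
  obtain ⟨z', hz', hne⟩ : ∃ z' : ℂ, aeval z' p = 0 ∧ z' ≠ z := by
    by_contra hcon
    push Not at hcon
    have hsep : p.Separable := hirr.separable
    have hcard : Fintype.card (p.rootSet ℂ) = p.natDegree :=
      Polynomial.card_rootSet_eq_natDegree hsep (IsAlgClosed.splits _)
    have hle : Fintype.card (p.rootSet ℂ) ≤ 1 := by
      rw [Fintype.card_le_one_iff]
      rintro ⟨a, ha⟩ ⟨b, hb⟩
      rw [Polynomial.mem_rootSet] at ha hb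
      exact Subtype.ext ((hcon a ha.2).trans (hcon b hb.2).symm)
    have h1 : p.natDegree ≤ 1 := hcard ▸ hle
    have h2 : p.natDegree = 1 := le_antisymm h1 (minpoly.natDegree_pos hi)
    apply hF
    have h3 := (minpoly.natDegree_eq_one_iff (A := F) (x := z)).1 h2
    obtain ⟨a, ha⟩ := h3
    rw [← ha]
    exact a.2
  have : Fact (Irreducible p) := ⟨hirr⟩
  have hc : Cardinal.mk (AdjoinRoot p) ≤ Cardinal.aleph0 := by
    have h1 : Countable F[X] := card_poly
    exact Cardinal.mk_le_aleph0_iff.mpr (AdjoinRoot.mk_surjective (g := p)).countable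
  let f : AdjoinRoot p →+* ℂ := AdjoinRoot.lift (algebraMap F ℂ) z (minpoly.aeval F z)
  let g : AdjoinRoot p →+* ℂ := AdjoinRoot.lift (algebraMap F ℂ) z' hz'
  obtain ⟨s, hs⟩ := H475.exists_ringEquiv_pow_aux2 hc f g
  refine ⟨s, ?_, ?_⟩
  · intro c hc
    have h1 := hs (AdjoinRoot.of p ⟨c, hc⟩)
    have h2 : f (AdjoinRoot.of p ⟨c, hc⟩) = c := AdjoinRoot.lift_of _
    have h3 : g (AdjoinRoot.of p ⟨c, hc⟩) = c := AdjoinRoot.lift_of _
    rwa [h2, h3] at h1
  · have h1 := hs (AdjoinRoot.root p)
    have h2 : f (AdjoinRoot.root p) = z := AdjoinRoot.lift_root _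
    have h3 : g (AdjoinRoot.root p) = z' := AdjoinRoot.lift_root _
    rw [h2, h3] at h1
    rw [h1]
    exact hne

/-- fixed by all automorphisms over `F`: in `F` -/
theorem mem_of_fixed [Countable F] {z : ℂ} (h : ∀ s : ℂ ≃+* ℂ, Fixes F s → s z = z) : z ∈ F := by
  by_contra hF
  by_cases hz : IsAlgebraic F z
  · obtain ⟨s, hs, hne⟩ := exists_move_alg hz hF
    exact hne (h s hs)
  · have hz1 : Transcendental F (z + 1) := by
      intro h1
      apply hz
      have h2 := h1.sub (isAlgebraic_one (R := F) (A := ℂ))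
      rwa [add_sub_cancel_right] at h2
    obtain ⟨s, hs, hsz⟩ := exists_aut_transc hz hz1
    rw [h s hs] at hsz
    exact one_ne_zero (left_eq_add.1 hsz)

/-- a proper subspace stable under all automorphisms over `F` is annihilated by a form over `F` -/
theorem exists_form [Countable F] {B : Type*} [Fintype B] (V : Submodule ℂ (B → ℂ))
    (hV : ∀ (s : ℂ ≃+* ℂ), Fixes F s → ∀ v ∈ V, (fun i => s (v i)) ∈ V) (hne : V ≠ ⊤) :
    ∃ r : B → ℂ, r ≠ 0 ∧ (∀ i, r i ∈ F) ∧ ∀ v ∈ V, ∑ i, r i * v i = 0 := by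
  classical
  -- a nonzero annihilating form
  obtain ⟨f, hf, hfV⟩ := Submodule.exists_le_ker_of_lt_top V (lt_top_iff_ne_top.2 hne)
  have hform : ∀ u : B → ℂ, f u = ∑ i, f (Pi.single i 1) * u i := by
    intro u
    have h2 : u = ∑ i, u i • (Pi.single i (1 : ℂ) : B → ℂ) := by
      funext j
      simp [Finset.sum_apply, Pi.single_apply]
    conv_lhs => rw [h2]
    rw [map_sum]
    refine Finset.sum_congr rfl fun i _ => ?_
    rw [map_smul, smul_eq_mul, mul_comm]
  set P : ℕ → Prop := fun k => ∃ r : B → ℂ, r ≠ 0 ∧ (∀ v ∈ V, ∑ i, r i * v i = 0) ∧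
    (Finset.univ.filter fun i => r i ≠ 0).card = k with hP
  have hex : ∃ k, P k := by
    refine ⟨_, fun i => f (Pi.single i 1), fun h => hf ?_, ?_, rfl⟩
    · apply LinearMap.pi_ext'
      intro i
      ext
      simpa using congrFun h i
    · intro v hv
      rw [← hform]
      exact hfV hv
  obtain ⟨r, hr0, hrV, hrk⟩ := Nat.find_spec hex
  obtain ⟨i₀, hi₀⟩ : ∃ i, r i ≠ 0 := by
    by_contra h
    push Not at h
    exact hr0 (funext h)
  have hmin : ∀ r' : B → ℂ, (∀ v ∈ V, ∑ i, r' i * v i = 0) → (∀ i, r i = 0 → r' i = 0) →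
      r' i₀ = 0 → r' = 0 := by
    intro r' h1 h2 h3
    by_contra h4
    have h5 : P (Finset.univ.filter fun i => r' i ≠ 0).card := ⟨r', h4, h1, rfl⟩
    have h6 := Nat.find_min' hex h5
    rw [← hrk] at h6
    have h7 : (Finset.univ.filter fun i => r' i ≠ 0) ⊂ (Finset.univ.filter fun i => r i ≠ 0) := by
      rw [Finset.ssubset_iff_of_subset]
      · refine ⟨i₀, ?_, ?_⟩
        · simp [hi₀]
        · simp [h3]
      · intro i hi
        simp only [Finset.mem_filter, Finset.mem_univ, true_and] at hi ⊢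
        exact fun h => hi (h2 i h)
    exact absurd h6 (not_le.2 (Finset.card_lt_card h7))
  refine ⟨fun i => r i / r i₀, fun h => ?_, fun i => ?_, fun v hv => ?_⟩
  · have := congrFun h i₀
    simp only [div_self hi₀, Pi.zero_apply] at this
    exact one_ne_zero this
  · refine mem_of_fixed fun s hs => ?_
    set r' : B → ℂ := fun i => s (r i / r i₀) - r i / r i₀ with hr'
    have h1 : r' = 0 := by
      refine hmin r' ?_ ?_ ?_
      · intro v hv
        have e1 := hrV v hv
        have e2 := hrV _ (hV s.symm hs.symm v hv)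
        have e3 := congrArg s e2
        rw [map_sum, map_zero] at e3
        simp only [map_mul, RingEquiv.apply_symm_apply] at e3
        have hs0 : s (r i₀) ≠ 0 := by
          rw [Ne, map_eq_zero_iff _ s.injective]
          exact hi₀
        have : ∀ i, r' i * v i = (s (r i) * v i) / s (r i₀) - (r i * v i) / r i₀ := by
          intro i
          simp only [hr', map_div₀]
          field_simp
        simp only [this]
        rw [Finset.sum_sub_distrib, ← Finset.sum_div, ← Finset.sum_div, e1, e3]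
        simp
      · intro i hi
        simp [hr', hi]
      · simp only [hr', div_self hi₀, map_one, sub_self]
    have h2 := congrFun h1 i
    simp only [hr', Pi.zero_apply] at h2
    exact sub_eq_zero.1 h2
  · have e1 := hrV v hv
    have : ∀ i, r i / r i₀ * v i = (r i * v i) / r i₀ := by
      intro i
      ring
    simp only [this]
    rw [← Finset.sum_div, e1, zero_div]

end Pool.Agent.H56F
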