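import Mathlib
import Pool.Agent.H56F.Mn
import Pool.Agent.H56P.Eqv

/-!
# From test objects to all objects, and subtorsors defined over a countable field
-/

set_option autoImplicit false
set_option linter.unusedSectionVars false

namespace Pool.Agent.H56F

open Pool.Agent.H56P

variable {Λ : Type} {n : Λ → ℕ} {ι κ : Type} [Fintype ι] [DecidableEq ι] [Fintype κ] [DecidableEq κ]

variable {F : Subfield ℂ}

theorem exists_rel_conj {A : Matrix κ ι ℚ} {x : GL ι ℂ} {x' : GL κ ℂ} (hx : Rel A x x')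
    {h' : GL κ ℂ} (hh : h' ∈ conj F x') : ∃ h ∈ conj F x, Rel A h h' := by
  induction hh using Subgroup.closure_induction with
  | mem g hg =>
    obtain ⟨s, hs, rfl⟩ := hg
    exact ⟨x⁻¹ * aut s x, Subgroup.subset_closure ⟨s, hs, rfl⟩, (Rel.inv hx).mul (hx.aut s)⟩
  | one => exact ⟨1, Subgroup.one_mem _, Rel.one A⟩
  | mul a b _ _ iha ihb =>
    obtain ⟨a', ha, ha'⟩ := iha
    obtain ⟨b', hb, hb'⟩ := ihb
    exact ⟨a' * b', Subgroup.mul_mem _ ha hb, ha'.mul hb'⟩
  | inv a _ ih =>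
    obtain ⟨a', ha, ha'⟩ := ih
    exact ⟨a'⁻¹, Subgroup.inv_mem _ ha, ha'.inv⟩

/-- for every degree `d` the periods of the extensions given by the generators in `S` of degree `d`
are linearly independent over `F` modulo `F + F τ ^ d` -/
def Ind (F : Subfield ℂ) (x : Point n) (S : Set Λ) : Prop := ∀ (d : ℕ) (r : Λ →₀ ℂ),
  (∀ l, r l ∈ F) → (∀ l ∈ r.support, l ∈ S ∧ n l = d) →
  (∃ p ∈ F, ∃ q ∈ F, (r.sum fun l a => a * per x l) = p + q * tau x ^ d) → r = 0

theorem gal_le_conj [Countable F] (hn : ∀ l, 1 ≤ n l) (x : Point n)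
    (hτ : Transcendental F (tau x)) (S : Set Λ) (hS : Ind F x S) (M : Mot n ι)
    (hM : ∀ l, M.N l ≠ 0 → l ∈ S) : gal M ≤ conj F (x.val M) := by
  classical
  set L : Finset Λ := M.finite.toFinset with hL
  have hLm : ∀ l, l ∈ L ↔ M.N l ≠ 0 := by
    intro l
    rw [hL, Set.Finite.mem_toFinset]
    rfl
  have hi1 := incl_inl M (tst n L)
  have hi2 := (incl_tate n L).comp (incl_inr M (tst n L))
  have hi3 := fun l : L => (incl_ext n L l).comp (incl_inr M (tst n L))
  have ht : tt (test M L) (x.val (M.sum (tst n L))) = tau x := hi2.val x () ()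
  have ha : ∀ l : L, al (test M L) (x.val (M.sum (tst n L))) l = per x l := fun l =>
    (hi3 l).val x true false
  have hsupp : ∀ l, (M.sum (tst n L)).N l ≠ 0 → l ∈ L := by
    intro l h
    by_contra h1
    apply h
    have h2 : M.N l = 0 := by
      by_contra h3
      exact h1 ((hLm l).2 h3)
    ext i j
    rcases i with i | i <;> rcases j with j | j
    · change M.N l i j = 0
      rw [h2]
      rfl
    · rfl
    · rfl
    · change (tst n L).N l i j = 0
      rcases i with _ | ⟨l', _ | _⟩ <;> rcases j with _ | ⟨l'', _ | _⟩ <;> simp [tst]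
      intro _ h3
      exact h1 (h3 ▸ l'.2)
  have hmain := main (F := F) hn (test M L) hsupp (x.mem _) (by rw [ht]; exact hτ) (by
    rintro d r hrF hr ⟨p, hp, q, hq, hpq⟩
    have h1 := hS d (Finsupp.onFinset L (fun l => if h : l ∈ L then r ⟨l, h⟩ else 0) (by
      intro l h
      by_contra h2
      apply h
      rw [dif_neg h2])) (by
        intro l
        rw [Finsupp.onFinset_apply]
        by_cases h2 : l ∈ L
        · rw [dif_pos h2]
          exact hrF _
        · rw [dif_neg h2]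
          exact F.zero_mem) (by
        intro l hl
        rw [Finsupp.mem_support_iff, Finsupp.onFinset_apply] at hl
        by_cases h2 : l ∈ L
        · rw [dif_pos h2] at hl
          exact ⟨hM l ((hLm l).1 h2), hr ⟨l, h2⟩ hl⟩
        · rw [dif_neg h2] at hl
          exact absurd rfl hl) ⟨p, hp, q, hq, by
        rw [← ht, ← hpq, Finsupp.onFinset_sum _ (by intro a; simp), ← Finset.sum_coe_sort]
        refine Finset.sum_congr rfl fun l _ => ?_
        rw [dif_pos l.2, ha]⟩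
    funext l
    have h2 := DFunLike.congr_fun h1 (l : Λ)
    rw [Finsupp.onFinset_apply, dif_pos l.2] at h2
    exact h2)
  intro g hg
  obtain ⟨g', hg', hrel⟩ := exists_rel hn hi1.mor hg
  have hxx : Pool.Agent.H56P.Rel (inc Sum.inl) ((x.val M : GL ι ℂ) : Matrix ι ι ℂ)
    ((x.val (M.sum (tst n L)) : GL (ι ⊕ Option (L × Bool)) ℂ) :
      Matrix (ι ⊕ Option (L × Bool)) (ι ⊕ Option (L × Bool)) ℂ) := x.nat _ _ _ hi1.mor
  obtain ⟨h, hh, hrel'⟩ := exists_rel_conj hxx (hmain hg')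
  have h1 : g = h := by
    apply Units.ext
    ext i j
    unfold Pool.Agent.H56P.Rel at hrel hrel'
    rw [← hrel'] at hrel
    have h2 := congrFun (congrFun hrel (Sum.inl i)) j
    rw [cx_inc_mul _ Sum.inl_injective, cx_inc_mul _ Sum.inl_injective] at h2
    exact h2
  rw [h1]
  exact hh

/-! ### Closed sets -/

/-- the value of a polynomial in the entries -/
noncomputable def evc (g : GL ι ℂ) (p : MvPolynomial (ι × ι) ℂ) : ℂ :=
  MvPolynomial.eval (fun ij : ι × ι => (g : Matrix ι ι ℂ) ij.1 ij.2) p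

/-- the set is given by polynomial equations with coefficients in `F` -/
def ClosedOver (F : Subfield ℂ) (X : Set (GL ι ℂ)) : Prop :=
  ∃ P : Set (MvPolynomial (ι × ι) ℂ), (∀ p ∈ P, ∀ m, p.coeff m ∈ F) ∧
    X = {g | ∀ p ∈ P, evc g p = 0}

theorem evc_aut {s : ℂ ≃+* ℂ} (hs : Fixes F s) (g : GL ι ℂ) (p : MvPolynomial (ι × ι) ℂ)
    (hp : ∀ m, p.coeff m ∈ F) : evc (aut s g) p = s (evc g p) := by
  rw [evc, evc, MvPolynomial.eval_eq', MvPolynomial.eval_eq', map_sum]
  refine Finset.sum_congr rfl fun m _ => ?_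
  rw [map_mul, hs _ (hp m), map_prod]
  congr 1
  refine Finset.prod_congr rfl fun ij _ => ?_
  rw [map_pow]
  rfl

/-- a subtorsor over `F` that contains `x` contains `x h` for `h` in the group of the `x⁻¹ s(x)` -/
theorem conj_mem {X : Set (GL ι ℂ)} (hX : ClosedOver F X) (hX' : Heap X) {x : GL ι ℂ} (hx : x ∈ X)
    {h : GL ι ℂ} (hh : h ∈ conj F x) : x * h ∈ X := by
  obtain ⟨P, hP, rfl⟩ := hX
  induction hh using Subgroup.closure_induction with
  | mem g hg =>
    obtain ⟨s, hs, rfl⟩ := hg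
    rw [mul_inv_cancel_left]
    intro p hp
    rw [evc_aut hs _ _ (hP p hp), hx p hp, map_zero]
  | one => rw [mul_one]; exact hx
  | mul a b _ _ iha ihb =>
    have := hX' _ iha _ hx _ ihb
    have h1 : x * a * x⁻¹ * (x * b) = x * (a * b) := by group
    rwa [h1] at this
  | inv a _ ih =>
    have := hX' _ hx _ ih _ hx
    have h1 : x * (x * a)⁻¹ * x = x * a⁻¹ := by group
    rwa [h1] at this

theorem gal_subset {M : Mot n ι} {x : GL ι ℂ} (hxM : x ∈ gal M) (hb : gal M ≤ conj F x)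
    {X : Set (GL ι ℂ)} (hX : ClosedOver F X) (hX' : Heap X) (hx : x ∈ X) :
    (gal M : Set (GL ι ℂ)) ⊆ X := by
  intro g hg
  have h1 := conj_mem hX hX' hx (hb (Subgroup.mul_mem _ (Subgroup.inv_mem _ hxM) hg))
  rwa [mul_inv_cancel_left] at h1

/-- the matrices `g` with `G g = g G'` -/
def inter (G G' : Matrix ι ι ℂ) : Set (GL ι ℂ) :=
  {g | G * (g : Matrix ι ι ℂ) = (g : Matrix ι ι ℂ) * G'}

theorem coeff_C_mem {σ : Type} {c : ℂ} (hc : c ∈ F) (m : σ →₀ ℕ) :
    (MvPolynomial.C c : MvPolynomial σ ℂ).coeff m ∈ F := by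
  classical
  rw [MvPolynomial.coeff_C]
  split_ifs
  · exact hc
  · exact F.zero_mem

theorem coeff_CX_mem {σ : Type} {c : ℂ} (hc : c ∈ F) (i : σ) (m : σ →₀ ℕ) :
    (MvPolynomial.C c * MvPolynomial.X i : MvPolynomial σ ℂ).coeff m ∈ F := by
  classical
  rw [MvPolynomial.coeff_C_mul, MvPolynomial.coeff_X]
  split_ifs
  · rw [mul_one]; exact hc
  · rw [mul_zero]; exact F.zero_mem

theorem inter_closed {G G' : Matrix ι ι ℂ} (hG : ∀ i j, G i j ∈ F) (hG' : ∀ i j, G' i j ∈ F) :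
    ClosedOver F (inter G G') := by
  refine ⟨Set.range fun ij : ι × ι => ∑ k, MvPolynomial.C (G ij.1 k) * MvPolynomial.X (k, ij.2) -
    ∑ k, MvPolynomial.C (G' k ij.2) * MvPolynomial.X (ij.1, k), ?_, ?_⟩
  · rintro _ ⟨ij, rfl⟩ m
    rw [MvPolynomial.coeff_sub, MvPolynomial.coeff_sum, MvPolynomial.coeff_sum]
    exact F.sub_mem (F.sum_mem fun k _ => coeff_CX_mem (hG _ _) _ _)
      (F.sum_mem fun k _ => coeff_CX_mem (hG' _ _) _ _)
  · ext g
    have h1 : ∀ ij : ι × ι, evc g (∑ k, MvPolynomial.C (G ij.1 k) * MvPolynomial.X (k, ij.2) -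
      ∑ k, MvPolynomial.C (G' k ij.2) * MvPolynomial.X (ij.1, k)) =
      (G * (g : Matrix ι ι ℂ)) ij.1 ij.2 - ((g : Matrix ι ι ℂ) * G') ij.1 ij.2 := by
      intro ij
      rw [evc, map_sub, map_sum, map_sum, Matrix.mul_apply, Matrix.mul_apply]
      simp only [map_mul, MvPolynomial.eval_C, MvPolynomial.eval_X]
      congr 1
      exact Finset.sum_congr rfl fun k _ => mul_comm _ _
    constructor
    · rintro hg p ⟨ij, rfl⟩
      rw [h1]
      rw [show G * (g : Matrix ι ι ℂ) = (g : Matrix ι ι ℂ) * G' from hg, sub_self]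
    · intro hg
      change G * (g : Matrix ι ι ℂ) = (g : Matrix ι ι ℂ) * G'
      ext i j
      have h2 := hg _ ⟨(i, j), rfl⟩
      rw [h1] at h2
      exact sub_eq_zero.1 h2

theorem inter_heap (G G' : Matrix ι ι ℂ) : Heap (inter G G') := by
  intro a ha b hb c hc
  change G * ((a * b⁻¹ * c : GL ι ℂ) : Matrix ι ι ℂ) =
    ((a * b⁻¹ * c : GL ι ℂ) : Matrix ι ι ℂ) * G'
  have ha' : G * (a : Matrix ι ι ℂ) = (a : Matrix ι ι ℂ) * G' := ha
  have hb' : G * (b : Matrix ι ι ℂ) = (b : Matrix ι ι ℂ) * G' := hb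
  have hc' : G * (c : Matrix ι ι ℂ) = (c : Matrix ι ι ℂ) * G' := hc
  have e1 : (b : Matrix ι ι ℂ) * ((b⁻¹ : GL ι ℂ) : Matrix ι ι ℂ) = 1 := by
    rw [← Units.val_mul, mul_inv_cancel, Units.val_one]
  have e2 : ((b⁻¹ : GL ι ℂ) : Matrix ι ι ℂ) * (b : Matrix ι ι ℂ) = 1 := by
    rw [← Units.val_mul, inv_mul_cancel, Units.val_one]
  have hb2 : ((b⁻¹ : GL ι ℂ) : Matrix ι ι ℂ) * G = G' * ((b⁻¹ : GL ι ℂ) : Matrix ι ι ℂ) := by
    calc ((b⁻¹ : GL ι ℂ) : Matrix ι ι ℂ) * G
        = ((b⁻¹ : GL ι ℂ) : Matrix ι ι ℂ) * (G * (b : Matrix ι ι ℂ)) *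
          ((b⁻¹ : GL ι ℂ) : Matrix ι ι ℂ) := by
          rw [Matrix.mul_assoc, Matrix.mul_assoc, e1, Matrix.mul_one]
      _ = G' * ((b⁻¹ : GL ι ℂ) : Matrix ι ι ℂ) := by
          rw [hb', ← Matrix.mul_assoc, e2, Matrix.one_mul]
  rw [Units.val_mul, Units.val_mul]
  calc G * ((a : Matrix ι ι ℂ) * ((b⁻¹ : GL ι ℂ) : Matrix ι ι ℂ) * (c : Matrix ι ι ℂ))
      = (G * (a : Matrix ι ι ℂ)) * ((b⁻¹ : GL ι ℂ) : Matrix ι ι ℂ) * (c : Matrix ι ι ℂ) := by
        simp only [Matrix.mul_assoc]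
    _ = (a : Matrix ι ι ℂ) * (G' * ((b⁻¹ : GL ι ℂ) : Matrix ι ι ℂ)) * (c : Matrix ι ι ℂ) := by
        rw [ha']
        simp only [Matrix.mul_assoc]
    _ = (a : Matrix ι ι ℂ) * ((b⁻¹ : GL ι ℂ) : Matrix ι ι ℂ) * (G * (c : Matrix ι ι ℂ)) := by
        rw [← hb2]
        simp only [Matrix.mul_assoc]
    _ = (a : Matrix ι ι ℂ) * ((b⁻¹ : GL ι ℂ) : Matrix ι ι ℂ) * (c : Matrix ι ι ℂ) * G' := by
        rw [hc']
        simp only [Matrix.mul_assoc]

/-- what commutes with all `exp (c N)` commutes with `N` -/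
theorem comm_of_exp (hn : ∀ l, 1 ≤ n l) (W : Mot n ι) (G : Matrix ι ι ℂ) (l : Λ)
    (h : ∀ c : ℂ, G * (E hn W l c : Matrix ι ι ℂ) = (E hn W l c : Matrix ι ι ℂ) * G) :
    G * cx (W.N l) = cx (W.N l) * G := by
  set A := cx (W.N l) with hA
  have hA0 : A ^ (bnd W + 2) = 0 := by
    rw [pow_add, hA, ← cx_pow, pow_zero_of_bnd hn]
    have : cx (0 : Matrix ι ι ℚ) = 0 := by
      ext i j
      simp [cx]
    rw [this, zero_mul]
  ext i j
  set P : Polynomial ℂ := ∑ k ∈ Finset.range (bnd W + 2),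
    Polynomial.C (((k.factorial : ℚ)⁻¹ : ℂ) * ((G * A ^ k) i j - (A ^ k * G) i j)) *
      Polynomial.X ^ k with hP
  have hz : P = 0 := by
    apply Polynomial.funext
    intro c
    have h1 := congrFun (congrFun (h c) i) j
    have h2 : (c • cx (W.N l)) ^ (bnd W + 2) = 0 := by
      rw [smul_pow, ← hA, hA0, smul_zero]
    rw [E_val, expN, IsNilpotent.exp_eq_sum h2, Matrix.mul_sum, Matrix.sum_mul, Matrix.sum_apply,
      Matrix.sum_apply, ← sub_eq_zero, ← Finset.sum_sub_distrib] at h1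
    rw [hP, Polynomial.eval_finsetSum, Polynomial.eval_zero, ← h1]
    refine Finset.sum_congr rfl fun k _ => ?_
    rw [Polynomial.eval_mul, Polynomial.eval_C, Polynomial.eval_pow, Polynomial.eval_X,
      Matrix.mul_smul, Matrix.smul_mul, smul_pow, Matrix.mul_smul, Matrix.smul_mul, ← hA]
    simp only [Matrix.smul_apply, smul_eq_mul, Rat.smul_def]
    push_cast
    ring
  have h3 := congrArg (fun Q : Polynomial ℂ => Q.coeff 1) hz
  simp only [hP, Polynomial.finsetSum_coeff, Polynomial.coeff_C_mul, Polynomial.coeff_X_pow,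
    Polynomial.coeff_zero] at h3
  rw [Finset.sum_eq_single 1] at h3
  · simp only [if_true, mul_one, Nat.factorial_one, Nat.cast_one, pow_one] at h3
    rw [Rat.cast_one, inv_one, one_mul] at h3
    exact sub_eq_zero.1 h3
  · intro k _ hk
    simp [Ne.symm hk]
  · intro h5
    exact absurd (Finset.mem_range.2 (by omega)) h5

theorem degree_of_torus (W : Mot n ι) (G : Matrix ι ι ℂ)
    (h : ∀ t : ℂˣ, G * (D W t : Matrix ι ι ℂ) = (D W t : Matrix ι ι ℂ) * G) (i j : ι)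
    (hG : G i j ≠ 0) : W.deg i = W.deg j := by
  have h1 := congrFun (congrFun (h (Units.mk0 2 two_ne_zero)) i) j
  rw [D_val, torus, Matrix.mul_diagonal, Matrix.diagonal_mul] at h1
  have h3 : ((2 : ℂ) ^ W.deg j) = (2 : ℂ) ^ W.deg i := by
    rw [mul_comm] at h1
    have := mul_right_cancel₀ hG h1
    rw [Units.val_zpow_eq_zpow_val, Units.val_zpow_eq_zpow_val] at this
    exact this
  have h4 : ((2 : ℝ) ^ W.deg j) = (2 : ℝ) ^ W.deg i := by
    apply Complex.ofReal_injective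
    rw [Complex.ofReal_zpow, Complex.ofReal_zpow]
    push_cast
    exact h3
  exact (zpow_right_injective₀ (by norm_num) (by norm_num) h4).symm

/-- combinations of morphisms with coefficients in `F`: the entries are in `F`, and the matrix is
compatible with the generators and the grading -/
structure MorOver (F : Subfield ℂ) (M : Mot n ι) (M' : Mot n κ) (A : Matrix κ ι ℂ) : Prop where
  entries : ∀ i j, A i j ∈ F
  comm : ∀ l, A * cx (M.N l) = cx (M'.N l) * A
  degree : ∀ i j, A i j ≠ 0 → M'.deg i = M.deg j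

/-- from the torsors to full faithfulness -/
theorem full (hn : ∀ l, 1 ≤ n l) (x : Point n) (M : Mot n ι) (M' : Mot n κ)
    (hc : ∀ X : Set (GL (ι ⊕ κ) ℂ), ClosedOver F X → Heap X → x.val (M.sum M') ∈ X →
      (gal (M.sum M') : Set (GL (ι ⊕ κ) ℂ)) ⊆ X) (A A' : Matrix κ ι ℂ)
    (hA : ∀ i j, A i j ∈ F) (hA' : ∀ i j, A' i j ∈ F)
    (hF : A * (x.val M : Matrix ι ι ℂ) = (x.val M' : Matrix κ κ ℂ) * A') :
    A = A' ∧ MorOver F M M' A := by
  set W := M.sum M' with hW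
  set G : Matrix (ι ⊕ κ) (ι ⊕ κ) ℂ := Matrix.fromBlocks 0 0 A 0 with hG
  set G' : Matrix (ι ⊕ κ) (ι ⊕ κ) ℂ := Matrix.fromBlocks 0 0 A' 0 with hG'
  have hxW : (x.val W : Matrix (ι ⊕ κ) (ι ⊕ κ) ℂ) =
      Matrix.fromBlocks (x.val M : Matrix ι ι ℂ) 0 0 (x.val M' : Matrix κ κ ℂ) := by
    have i1 := incl_inl M M'
    have i2 := incl_inr M M'
    ext p q
    rcases p with p | p <;> rcases q with q | q
    · exact i1.val x p q
    · have h1 := congrFun (congrFun (x.nat M' W _ i2.mor) (Sum.inl p)) q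
      rw [mul_cx_inc, cx_inc_mul' Sum.inr _ _ (by simp)] at h1
      exact h1.symm
    · have h1 := congrFun (congrFun (x.nat M W _ i1.mor) (Sum.inr p)) q
      rw [mul_cx_inc, cx_inc_mul' Sum.inl _ _ (by simp)] at h1
      exact h1.symm
    · exact i2.val x p q
  have hent : ∀ B : Matrix κ ι ℂ, (∀ i j, B i j ∈ F) →
      ∀ p q, (Matrix.fromBlocks 0 0 B 0 : Matrix (ι ⊕ κ) (ι ⊕ κ) ℂ) p q ∈ F := by
    intro B hB p q
    rcases p with p | p <;> rcases q with q | q
    · exact F.zero_mem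
    · exact F.zero_mem
    · exact hB p q
    · exact F.zero_mem
  have hmem : x.val W ∈ inter G G' := by
    change G * (x.val W : Matrix (ι ⊕ κ) (ι ⊕ κ) ℂ) =
      (x.val W : Matrix (ι ⊕ κ) (ι ⊕ κ) ℂ) * G'
    rw [hxW, hG, hG', Matrix.fromBlocks_multiply, Matrix.fromBlocks_multiply]
    simp [hF]
  have hsub := hc _ (inter_closed (hent A hA) (hent A' hA')) (inter_heap G G') hmem
  have hone : G = G' := by
    have h1 : (1 : GL (ι ⊕ κ) ℂ) ∈ inter G G' := hsub (Subgroup.one_mem _)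
    have h2 : G * ((1 : GL (ι ⊕ κ) ℂ) : Matrix (ι ⊕ κ) (ι ⊕ κ) ℂ) =
      ((1 : GL (ι ⊕ κ) ℂ) : Matrix (ι ⊕ κ) (ι ⊕ κ) ℂ) * G' := h1
    rwa [Units.val_one, Matrix.mul_one, Matrix.one_mul] at h2
  have hFF : A = A' := by
    ext p q
    exact congrFun (congrFun hone (Sum.inr p)) (Sum.inl q)
  refine ⟨hFF, hA, ?_, ?_⟩
  · intro l
    have h1 := comm_of_exp hn W G l (fun c => by
      have : E hn W l c ∈ inter G G' := hsub (E_mem hn W l c)
      have h2 : G * (E hn W l c : Matrix (ι ⊕ κ) (ι ⊕ κ) ℂ) =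
        (E hn W l c : Matrix (ι ⊕ κ) (ι ⊕ κ) ℂ) * G' := this
      rwa [← hone] at h2)
    have h2 : cx (W.N l) = Matrix.fromBlocks (cx (M.N l)) 0 0 (cx (M'.N l)) := by
      ext p q
      rcases p with p | p <;> rcases q with q | q <;>
        simp [hW, Mot.sum, cx]
    rw [h2, hG, Matrix.fromBlocks_multiply, Matrix.fromBlocks_multiply] at h1
    have h3 := congrArg Matrix.toBlocks₂₁ h1
    simpa using h3
  · intro p q hpq
    exact degree_of_torus W G (fun t => by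
      have : D W t ∈ inter G G' := hsub (D_mem W t)
      have h2 : G * (D W t : Matrix (ι ⊕ κ) (ι ⊕ κ) ℂ) =
        (D W t : Matrix (ι ⊕ κ) (ι ⊕ κ) ℂ) * G' := this
      rwa [← hone] at h2) (Sum.inr p) (Sum.inl q) hpq

end Pool.Agent.H56F
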