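import Mathlib
import Pool.Agent.H56F.Red
import Pool.Agent.H56P.Bak

/-!
# From full faithfulness over a field to the linear independence of the periods over this field
-/

set_option autoImplicit false
set_option linter.unusedSectionVars false

namespace Pool.Agent.H56F

open Pool.Agent.H56P

variable {Λ : Type} {n : Λ → ℕ} {F : Subfield ℂ}

theorem sum_unit (f : Unit → ℂ) : ∑ j, f j = f () := by
  rw [Finset.univ_unique, Finset.sum_singleton]

open Classical in
theorem unv_none (hn : ∀ l, 1 ≤ n l) (x : Point n) (L : Finset Λ) (j : Option L) :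
    (x.val (unv n L) : Matrix (Option L) (Option L) ℂ) none j = if j = none then 1 else 0 := by
  classical
  have h0 := val_pur hn x 0
  rw [pow_zero] at h0
  let G : Matrix Unit (Option L) ℚ := fun _ b => if b = none then 1 else 0
  have hG : IsMor (unv n L) (pur n ((0 : ℕ) : ℤ)) G := by
    constructor
    · intro l
      ext i j
      rw [Matrix.mul_apply, Matrix.mul_apply, Fintype.sum_option]
      rcases j with _ | j <;> simp [G, unv, pur]
    · intro i j h
      rcases j with _ | j
      · simp [unv, pur]
      · simp [G] at h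
  have h1 := congrFun (congrFun (x.nat _ _ G hG) ()) j
  rw [Matrix.mul_apply, Matrix.mul_apply, Fintype.sum_option] at h1
  have a1 : cx G () none = 1 := by rw [cx_apply]; simp [G]
  have a2 : ∀ l : L, cx G () (some l) = 0 := by intro l; rw [cx_apply]; simp [G]
  rw [a1, sum_unit] at h1
  simp only [a2, zero_mul, Finset.sum_const_zero, add_zero, one_mul] at h1
  rw [h1]
  rw [h0, one_mul]
  by_cases hj : j = none
  · rw [if_pos hj, hj]
    exact a1
  · rw [if_neg hj, cx_apply]
    simp [G, hj]

open Classical in
theorem unv_some (hn : ∀ l, 1 ≤ n l) (x : Point n) (L : Finset Λ) (l : L) (j : Option L) :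
    (x.val (unv n L) : Matrix (Option L) (Option L) ℂ) j (some l) =
      if j = some l then tau x ^ n l else 0 := by
  classical
  have hi : Incl (pur n ((n l : ℕ) : ℤ)) (unv n L) (fun _ => some l) := by
    constructor
    · intro a b _
      rfl
    · intro _
      simp [unv, pur]
    · intro l' _ _
      simp [unv, pur]
    · intro l' p _ _
      simp [unv]
  have h1 := congrFun (congrFun (x.nat _ _ _ hi.mor) j) ()
  rw [mul_cx_inc] at h1
  rw [← h1]
  by_cases hj : j = some l
  · rw [if_pos hj, hj]
    have h2 := cx_inc_mul (fun _ : Unit => some l) (fun _ _ _ => rfl)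
      (x.val (pur n ((n l : ℕ) : ℤ)) : Matrix Unit Unit ℂ) () ()
    rw [← val_pur hn x (n l)]
    exact h2
  · rw [if_neg hj]
    refine cx_inc_mul' _ _ j ?_ ()
    rintro ⟨_, h3⟩
    exact hj h3.symm

open Classical in
/-- full faithfulness over `F` gives linear independence over `F` -/
theorem ind_of_full (hn : ∀ l, 1 ≤ n l) (x : Point n) (S : Set Λ)
    (hd : ∀ (d : ℕ) (L : Finset Λ) [DecidableEq (Option L)], L.Nonempty → (∀ l ∈ L, l ∈ S ∧ n l = d) →
      ∀ A A' : Matrix Unit (Option L) ℂ, (∀ i j, A i j ∈ F) → (∀ i j, A' i j ∈ F) →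
      A * (x.val (unv n L) : Matrix (Option L) (Option L) ℂ) =
        (x.val (pur n (d : ℤ)) : Matrix Unit Unit ℂ) * A' →
      MorOver F (unv n L) (pur n (d : ℤ)) A) : Ind F x S := by
  classical
  rintro d r hrF hr ⟨p, hp, q, hq, hpq⟩
  by_contra hr0
  set L := r.support with hL
  have hLne : L.Nonempty := Finsupp.support_nonempty_iff.2 hr0
  let A : Matrix Unit (Option L) ℂ := fun _ j => match j with
    | none => -p
    | some l => r l
  let A' : Matrix Unit (Option L) ℂ := fun _ j => match j with
    | none => q
    | some l => r l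
  have hmor := hd d L hLne hr A A' (by
      intro i j
      rcases j with _ | j
      · exact F.neg_mem hp
      · exact hrF _) (by
      intro i j
      rcases j with _ | j
      · exact hq
      · exact hrF _) (by
      ext u j
      rw [Matrix.mul_apply, Matrix.mul_apply, Fintype.sum_option, sum_unit]
      have b0 : (x.val (pur n ((d : ℕ) : ℤ)) : Matrix Unit Unit ℂ) u () =
        tau x ^ d := val_pur hn x d
      rw [b0, unv_none hn]
      rcases j with _ | l'
      · rw [if_pos rfl, mul_one]
        simp only [unv_val]
        change -p + ∑ l : L, r l * per x l = tau x ^ d * q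
        rw [Finsupp.sum, ← Finset.sum_coe_sort] at hpq
        rw [hpq]
        ring
      · rw [if_neg (by simp), mul_zero, zero_add]
        simp only [unv_some hn]
        rw [Finset.sum_eq_single l' (by
          intro b _ hb
          rw [if_neg (by simpa using hb), mul_zero]) (by
          intro h
          exact absurd (Finset.mem_univ _) h), if_pos rfl]
        change r l' * tau x ^ n l' = tau x ^ d * r l'
        rw [(hr l' l'.2).2, mul_comm])
  obtain ⟨l₀, hl₀⟩ := hLne
  have h1 := congrFun (congrFun (hmor.comm l₀) ()) none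
  have h2 : ∀ l : L, cx ((unv n L).N l₀) (some l) none = if l₀ = l then 1 else 0 := by
    intro l
    rw [cx_apply]
    by_cases h : l₀ = l <;> simp [unv, h]
  have h3 : cx ((unv n L).N l₀) none none = 0 := by
    rw [cx_apply]
    simp [unv]
  have h4 : cx ((pur n (d : ℤ)).N l₀) = 0 := by
    ext i j
    simp [cx, pur]
  rw [Matrix.mul_apply, Fintype.sum_option, h3, mul_zero, zero_add, h4, Matrix.zero_mul] at h1
  simp only [h2] at h1
  rw [Finset.sum_eq_single (⟨l₀, hl₀⟩ : L)] at h1
  · rw [if_pos rfl, mul_one] at h1
    exact (Finsupp.mem_support_iff.1 hl₀) h1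
  · intro b _ hb
    rw [if_neg (fun h => hb (Subtype.ext h.symm)), mul_zero]
  · intro h
    exact absurd (Finset.mem_univ _) h

end Pool.Agent.H56F
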