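import Mathlib
import Pool.Agent.H56P.Nem
import Pool.Agent.H56P.Ari
import Pool.Agent.H56F.Cls
import Pool.Agent.H297R2.InBakerThm

/-!
# Comparison isomorphisms of the mixed Tate motives over `ℚ`, over a field of algebraic numbers
-/

set_option autoImplicit false

namespace Pool.Agent.H56F

open Pool.Agent.H56P

/-- the generators of the Lie algebra: the primes and the odd numbers `2 k + 3` -/
abbrev Generator : Type := Nat.Primes ⊕ ℕ

/-- the degree of the generators -/
def degree : Generator → ℕ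
  | .inl _ => 1
  | .inr k => 2 * k + 3

/-- the value `ζ(s)` -/
noncomputable def zeta (s : ℕ) : ℝ := ∑' m : ℕ, 1 / ((m : ℝ) + 1) ^ s

/-- comparison isomorphisms -/
structure Comparison where
  /-- the isomorphisms, relative to a rational isomorphism of the fibre functors -/
  x : Point degree
  tate : ∃ q : ℚ, q ≠ 0 ∧ tau x = q / (2 * Real.pi * Complex.I)
  odd : ∀ k : ℕ, ∃ a b : ℚ, a ≠ 0 ∧
    per x (.inr k) = a * zeta (2 * k + 3) * tau x ^ (2 * k + 3) + b
  prime : ∀ p : Nat.Primes, ∃ a b : ℚ, a ≠ 0 ∧ per x (.inl p) = a * Real.log p * tau x + b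

/-- only the generators in `S` act, and the degrees lie in an interval of length `D` -/
def InClass {ι : Type} (S : Set Generator) (D : ℕ∞) (M : Mot degree ι) : Prop :=
  (∀ l, M.N l ≠ 0 → l ∈ S) ∧ ∀ i j, ((M.deg i - M.deg j).toNat : ℕ∞) ≤ D

/-- the elements `x⁻¹ s(x)`, `s` an automorphism of `ℂ` over `F`, generate the group of `M` -/
def Generated (F : Subfield ℂ) (C : Comparison) (S : Set Generator) (D : ℕ∞) : Prop :=
  ∀ (ι : Type) [Fintype ι] [DecidableEq ι] (M : Mot degree ι), InClass S D M →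
    conj F (C.x.val M) = gal M

/-- a torsor over `F` that contains the comparison isomorphism contains the motivic torsor -/
def NoSmallerTorsor (F : Subfield ℂ) (C : Comparison) (S : Set Generator) (D : ℕ∞) : Prop :=
  ∀ (ι : Type) [Fintype ι] [DecidableEq ι] (M : Mot degree ι), InClass S D M →
    ∀ X : Set (GL ι ℂ), ClosedOver F X → Heap X → C.x.val M ∈ X → (gal M : Set (GL ι ℂ)) ⊆ X

/-- the de Rham-Betti realization with coefficients in `F` is fully faithful -/
def FullyFaithful (F : Subfield ℂ) (C : Comparison) (S : Set Generator) (D : ℕ∞) : Prop :=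
  ∀ (ι κ : Type) [Fintype ι] [DecidableEq ι] [Fintype κ] [DecidableEq κ] (M : Mot degree ι)
    (M' : Mot degree κ), InClass S D (M.sum M') → ∀ A A' : Matrix κ ι ℂ,
    (∀ i j, A i j ∈ F) → (∀ i j, A' i j ∈ F) →
    A * (C.x.val M : Matrix ι ι ℂ) = (C.x.val M' : Matrix κ κ ℂ) * A' →
    A = A' ∧ MorOver F M M' A

/-- the odd zeta values for the generators in `S` of degree at most `D` are not in
`F + F (2 π i) ^ n` -/
def NotLinear (F : Subfield ℂ) (S : Set Generator) (D : ℕ∞) : Prop :=
  ∀ k : ℕ, .inr k ∈ S → ((2 * k + 3 : ℕ) : ℕ∞) ≤ D → ∀ a ∈ F, ∀ b ∈ F,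
    (zeta (2 * k + 3) : ℂ) ≠ a + b * (2 * Real.pi * Complex.I) ^ (2 * k + 3)

/-- all elements of the field are algebraic numbers -/
def Alg (F : Subfield ℂ) : Prop := ∀ z ∈ F, IsAlgebraic ℚ z

theorem one_le_degree (l : Generator) : 1 ≤ degree l := by
  rcases l with p | k
  · exact le_rfl
  · change 1 ≤ 2 * k + 3
    omega

/-- the generators in `S` of degree at most `D` -/
def cut (S : Set Generator) (D : ℕ∞) : Set Generator := {l | l ∈ S ∧ ((degree l : ℕ) : ℕ∞) ≤ D}

theorem mem_cut {ι : Type} [Fintype ι] [DecidableEq ι] {S : Set Generator} {D : ℕ∞}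
    {M : Mot degree ι} (hM : InClass S D M) (l : Generator) (hl : M.N l ≠ 0) : l ∈ cut S D := by
  refine ⟨hM.1 l hl, ?_⟩
  obtain ⟨i, j, hij⟩ : ∃ i j, M.N l i j ≠ 0 := by
    by_contra h
    push Not at h
    exact hl (by ext i j; exact h i j)
  have h1 := M.raises l i j hij
  have h2 := hM.2 i j
  rw [h1, add_sub_cancel_left, Int.toNat_natCast] at h2
  exact h2

theorem countable_of_alg {F : Subfield ℂ} (hF : Alg F) : Countable F :=
  ((Algebraic.countable ℚ ℂ).mono (fun z hz => hF z hz)).to_subtype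

theorem algebraic_of_alg {F : Subfield ℂ} (hF : Alg F) : Algebra.IsAlgebraic ℚ F := by
  constructor
  intro z
  have h := hF z z.2
  have h2 : IsAlgebraic ℚ (algebraMap F ℂ z) := h
  exact (isAlgebraic_algebraMap_iff (algebraMap F ℂ).injective).1 h2

theorem tau_tr {F : Subfield ℂ} (hF : Alg F) (C : Comparison) : Transcendental F (tau C.x) := by
  obtain ⟨q, hq, h⟩ := C.tate
  have := algebraic_of_alg hF
  intro h1
  exact tau_transc q hq _ h (h1.restrictScalars ℚ)

theorem two_pi_ne : (2 * Real.pi * Complex.I : ℂ) ≠ 0 := by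
  have hpi : (Real.pi : ℂ) ≠ 0 := by exact_mod_cast Real.pi_ne_zero
  exact mul_ne_zero (mul_ne_zero two_ne_zero hpi) Complex.I_ne_zero

/-- logarithms of primes and `2 π i` are linearly independent over `ℚ` -/
theorem log_two_pi (s : Finset Nat.Primes) : LinearIndependent ℚ (fun i : Option s =>
    match i with
    | none => (2 * Real.pi * Complex.I : ℂ)
    | some p => ((Real.log ((p : Nat.Primes) : ℕ) : ℝ) : ℂ)) := by
  classical
  rw [Fintype.linearIndependent_iff]
  intro g hg
  rw [Fintype.sum_option] at hg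
  obtain ⟨lg, hlg⟩ : ∃ lg : s → ℝ, ∀ i : s, Real.log ((i : Nat.Primes) : ℕ) = lg i :=
    ⟨_, fun _ => rfl⟩
  simp only [hlg] at hg
  have hre := congrArg Complex.re hg
  have him := congrArg Complex.im hg
  have e1 : (g none • (2 * Real.pi * Complex.I : ℂ) + ∑ x : s, g (some x) • ((lg x : ℝ) : ℂ)) =
      (((∑ x : s, (g (some x) : ℝ) * lg x : ℝ)) : ℂ) +
        ((((g none : ℝ) * (2 * Real.pi) : ℝ)) : ℂ) * Complex.I := by
    simp only [Rat.smul_def]
    push_cast
    ring
  rw [e1] at hre him
  rw [Complex.add_re, Complex.ofReal_re, Complex.re_ofReal_mul, Complex.I_re, mul_zero, add_zero,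
    Complex.zero_re] at hre
  rw [Complex.add_im, Complex.ofReal_im, Complex.im_ofReal_mul, Complex.I_im, mul_one, zero_add,
    Complex.zero_im] at him
  have h0 : g none = 0 := by
    have h2 : (g none : ℝ) = 0 := (mul_eq_zero.1 him).resolve_right (by positivity)
    exact_mod_cast h2
  intro i
  rcases i with _ | p
  · exact h0
  · have h3 := log_indep s (fun p => if h : p ∈ s then g (some ⟨p, h⟩) else 0) 0 (by
      rw [Rat.cast_zero, ← hre, ← Finset.sum_coe_sort]
      refine Finset.sum_congr rfl fun x _ => ?_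
      rw [dif_pos x.2, hlg]) p p.2
    rw [dif_pos p.2] at h3
    exact h3

theorem ind_of_notLinear {F : Subfield ℂ} (hF : Alg F) (C : Comparison) (S : Set Generator)
    (D : ℕ∞) (h : NotLinear F S D) : Ind F C.x (cut S D) := by
  classical
  obtain ⟨q₀, hq₀, hτ⟩ := C.tate
  have hq₀' : (q₀ : ℂ) ≠ 0 := by exact_mod_cast hq₀
  have hrat : ∀ q : ℚ, (q : ℂ) ∈ F := fun q => by
    exact SubfieldClass.ratCast_mem F q
  have hw := two_pi_ne
  set w : ℂ := 2 * Real.pi * Complex.I with hwdef
  have hτw : tau C.x * w = q₀ := by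
    rw [hτ]
    field_simp
  have hτ0 : tau C.x ≠ 0 := by
    intro h0
    rw [h0, zero_mul] at hτw
    exact hq₀' hτw.symm
  rintro d r hrF hr ⟨p, hp, q, hq, hpq⟩
  by_contra hr0
  obtain ⟨l₀, hl₀⟩ := Finsupp.support_nonempty_iff.2 hr0
  rcases l₀ with p₀ | k
  · -- degree one
    have hd : d = 1 := (hr _ hl₀).2.symm
    subst hd
    have hall : ∀ l ∈ r.support, ∃ p : Nat.Primes, l = Sum.inl p := by
      intro l hl
      rcases l with p | k
      · exact ⟨p, rfl⟩
      · have := (hr _ hl).2
        change 2 * k + 3 = 1 at this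
        omega
    choose a b ha hab using C.prime
    obtain ⟨lg, hlg⟩ : ∃ lg : Nat.Primes → ℝ, ∀ i : Nat.Primes, Real.log (i : ℕ) = lg i :=
      ⟨_, fun _ => rfl⟩
    set s : Finset Nat.Primes := r.support.preimage Sum.inl Sum.inl_injective.injOn with hs
    have hsum : (r.sum fun l c => c * per C.x l) =
        ∑ i ∈ s, r (Sum.inl i) * per C.x (Sum.inl i) := by
      rw [Finsupp.sum, hs]
      rw [Finset.sum_preimage Sum.inl r.support Sum.inl_injective.injOn
        (fun l => r l * per C.x l)]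
      intro l hl hn
      obtain ⟨i, rfl⟩ := hall l hl
      exact absurd ⟨i, rfl⟩ hn
    set B : ℂ := ∑ i ∈ s, r (Sum.inl i) * b i with hB
    have h1 : (∑ i ∈ s, (r (Sum.inl i) * a i) * (lg i : ℂ)) * tau C.x + B =
        p + q * tau C.x := by
      rw [hsum, pow_one] at hpq
      simp only [hab, hlg] at hpq
      rw [← hpq, hB, Finset.sum_mul, ← Finset.sum_add_distrib]
      refine Finset.sum_congr rfl fun i _ => ?_
      ring
    have h2 : -q + ∑ i : Option s, (match i with
        | none => (B - p) / q₀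
        | some i => r (Sum.inl (i : Nat.Primes)) * a i) * (match i with
        | none => w
        | some p => ((Real.log ((p : Nat.Primes) : ℕ) : ℝ) : ℂ)) = 0 := by
      rw [Fintype.sum_option]
      simp only [hlg]
      have h3 : ∑ i : s, r (Sum.inl (i : Nat.Primes)) * (a (i : Nat.Primes) : ℂ) *
          ((lg (i : Nat.Primes) : ℝ) : ℂ) = ∑ i ∈ s, (r (Sum.inl i) * a i) * (lg i : ℂ) :=
        Finset.sum_coe_sort s (fun i => (r (Sum.inl i) * (a i : ℂ)) * ((lg i : ℝ) : ℂ))
      rw [h3]
      set T : ℂ := ∑ i ∈ s, (r (Sum.inl i) * a i) * (lg i : ℂ) with hT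
      have h4 : (-q + ((B - p) / q₀ * w + T)) * tau C.x = 0 := by
        have h5 : (-q + ((B - p) / q₀ * w + T)) * tau C.x =
          (T * tau C.x + B) - (p + q * tau C.x) + (B - p) * (tau C.x * w / q₀ - 1) := by
          field_simp
          ring
        rw [h5, h1, hτw, div_self hq₀']
        ring
      exact (mul_eq_zero.1 h4).resolve_right hτ0
    have hBF : B ∈ F := F.sum_mem fun i _ => F.mul_mem (hrF _) (hrat _)
    have h6 := Pool.Agent.H297R2.baker_inhom (fun i : Option s => match i with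
        | none => w
        | some p => ((Real.log ((p : Nat.Primes) : ℕ) : ℝ) : ℂ)) (by
        intro i
        rcases i with _ | i
        · change IsAlgebraic ℚ (Complex.exp w)
          rw [hwdef, Complex.exp_two_pi_mul_I]
          exact isAlgebraic_one
        · change IsAlgebraic ℚ (Complex.exp ((Real.log (((i : Nat.Primes) : ℕ) : ℝ) : ℝ) : ℂ))
          have hpos : (0 : ℝ) < ((i : Nat.Primes) : ℕ) := by exact_mod_cast i.1.2.pos
          rw [← Complex.ofReal_exp, Real.exp_log hpos, Complex.ofReal_natCast]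
          exact isAlgebraic_natCast _) (log_two_pi s) (-q) (hF _ (F.neg_mem hq)) (fun i => match i with
        | none => (B - p) / q₀
        | some i => r (Sum.inl (i : Nat.Primes)) * a i) (by
        intro i
        rcases i with _ | i
        · exact hF _ (F.div_mem (F.sub_mem hBF hp) (hrat _))
        · exact hF _ (F.mul_mem (hrF _) (hrat _))) h2
    have h7 := h6.2 (some ⟨p₀, by rw [hs, Finset.mem_preimage]; exact hl₀⟩)
    have h8 : r (Sum.inl p₀) * (a p₀ : ℂ) = 0 := h7
    have h9 : (a p₀ : ℂ) ≠ 0 := by exact_mod_cast ha p₀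
    exact (mul_ne_zero (Finsupp.mem_support_iff.1 hl₀) h9) h8
  · -- odd degree at least three
    have hd : d = 2 * k + 3 := (hr _ hl₀).2.symm
    subst hd
    have hall : ∀ l ∈ r.support, l = Sum.inr k := by
      intro l hl
      rcases l with p | k'
      · have := (hr _ hl).2
        change 1 = 2 * k + 3 at this
        omega
      · have := (hr _ hl).2
        change 2 * k' + 3 = 2 * k + 3 at this
        rw [show k' = k by omega]
    obtain ⟨a, b, ha, hab⟩ := C.odd k
    have hr1 : r = Finsupp.single (Sum.inr k) (r (Sum.inr k)) := by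
      ext l
      by_cases hl : l = Sum.inr k
      · rw [hl, Finsupp.single_eq_same]
      · rw [Finsupp.single_eq_of_ne hl]
        by_contra h1
        exact hl (hall l (Finsupp.mem_support_iff.2 h1))
    set ρ := r (Sum.inr k) with hρ
    have hρ0 : ρ ≠ 0 := Finsupp.mem_support_iff.1 hl₀
    have hρF : ρ ∈ F := hrF _
    have ha' : (a : ℂ) ≠ 0 := by exact_mod_cast ha
    rw [hr1, Finsupp.sum_single_index (by simp), hab] at hpq
    have hpow : tau C.x ^ (2 * k + 3) * w ^ (2 * k + 3) = (q₀ : ℂ) ^ (2 * k + 3) := by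
      rw [← mul_pow, hτw]
    have hτp : tau C.x ^ (2 * k + 3) ≠ 0 := pow_ne_zero _ hτ0
    have hqp : (q₀ : ℂ) ^ (2 * k + 3) ≠ 0 := pow_ne_zero _ hq₀'
    refine h k (hr _ hl₀).1.1 (hr _ hl₀).1.2 (q / (ρ * a))
      (F.div_mem hq (F.mul_mem hρF (hrat a)))
      ((p - ρ * b) / (ρ * a * (q₀ : ℂ) ^ (2 * k + 3)))
      (F.div_mem (F.sub_mem hp (F.mul_mem hρF (hrat b)))
        (F.mul_mem (F.mul_mem hρF (hrat a)) (F.pow_mem (hrat q₀) _))) ?_
    rw [← hwdef]
    set Z : ℂ := (zeta (2 * k + 3) : ℂ) with hZ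
    set t : ℂ := tau C.x ^ (2 * k + 3) with ht
    set W : ℂ := w ^ (2 * k + 3) with hW
    set Q : ℂ := (q₀ : ℂ) ^ (2 * k + 3) with hQ
    have h1 : (Z - (q / (ρ * a) + (p - ρ * b) / (ρ * a * Q) * W)) * (t * Q * ρ * a) = 0 := by
      have h2 : (Z - (q / (ρ * a) + (p - ρ * b) / (ρ * a * Q) * W)) * (t * Q * ρ * a) =
          (ρ * (a * Z * t + b) - (p + q * t)) * Q + (p - ρ * b) * (Q - t * W) := by
        field_simp
        ring
      rw [h2, hpq, hpow]
      ring
    have h3 : t * Q * ρ * a ≠ 0 := mul_ne_zero (mul_ne_zero (mul_ne_zero hτp hqp) hρ0) ha'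
    exact sub_eq_zero.1 ((mul_eq_zero.1 h1).resolve_right h3)

theorem notLinear_of_ind {F : Subfield ℂ} (C : Comparison) (S : Set Generator) (D : ℕ∞)
    (h : Ind F C.x (cut S D)) : NotLinear F S D := by
  classical
  rintro k hk hkD α hα β hβ hz
  obtain ⟨q₀, hq₀, hτ⟩ := C.tate
  have hq₀' : (q₀ : ℂ) ≠ 0 := by exact_mod_cast hq₀
  have hrat : ∀ q : ℚ, (q : ℂ) ∈ F := fun q => SubfieldClass.ratCast_mem F q
  have hw := two_pi_ne
  have hτw : tau C.x * (2 * Real.pi * Complex.I) = q₀ := by
    rw [hτ]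
    field_simp
  have hpow : tau C.x ^ (2 * k + 3) * (2 * Real.pi * Complex.I) ^ (2 * k + 3) =
      (q₀ : ℂ) ^ (2 * k + 3) := by
    rw [← mul_pow, hτw]
  obtain ⟨a, b, ha, hab⟩ := C.odd k
  have h1 := h (2 * k + 3) (Finsupp.single (Sum.inr k) 1) (by
      intro l
      rw [Finsupp.single_apply]
      split_ifs
      · exact F.one_mem
      · exact F.zero_mem) (by
    intro l hl
    have hl' : l = Sum.inr k := by
      by_contra h2
      rw [Finsupp.mem_support_iff, Finsupp.single_eq_of_ne h2] at hl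
      exact hl rfl
    rw [hl']
    exact ⟨⟨hk, hkD⟩, rfl⟩) ⟨b + a * β * (q₀ : ℂ) ^ (2 * k + 3),
      F.add_mem (hrat b) (F.mul_mem (F.mul_mem (hrat a) hβ) (F.pow_mem (hrat q₀) _)),
      a * α, F.mul_mem (hrat a) hα, by
      rw [Finsupp.sum_single_index (by simp), hab, hz, ← hpow]
      ring⟩
  have h2 := DFunLike.congr_fun h1 (Sum.inr k : Generator)
  rw [Finsupp.single_eq_same] at h2
  exact one_ne_zero h2

theorem generated_of_ind {F : Subfield ℂ} (hF : Alg F) (C : Comparison) (S : Set Generator)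
    (D : ℕ∞) (h : Ind F C.x (cut S D)) : Generated F C S D := by
  have := countable_of_alg hF
  intro ι _ _ M hM
  exact le_antisymm (conj_le one_le_degree M (C.x.mem M))
    (gal_le_conj one_le_degree C.x (tau_tr hF C) _ h M fun l hl => mem_cut hM l hl)

theorem torsor_of_generated {F : Subfield ℂ} (C : Comparison) (S : Set Generator) (D : ℕ∞)
    (h : Generated F C S D) : NoSmallerTorsor F C S D := by
  intro ι _ _ M hM X hX hX' hx
  exact gal_subset (C.x.mem M) (h ι M hM).ge hX hX' hx

theorem full_of_torsor {F : Subfield ℂ} (C : Comparison) (S : Set Generator) (D : ℕ∞)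
    (h : NoSmallerTorsor F C S D) : FullyFaithful F C S D := by
  intro ι κ _ _ _ _ M M' hM A A' hA hA' hF
  exact full one_le_degree C.x M M' (fun X hX hX' hx => h _ _ hM X hX hX' hx) A A' hA hA' hF

theorem ind_of_full' {F : Subfield ℂ} (C : Comparison) (S : Set Generator) (D : ℕ∞)
    (h : FullyFaithful F C S D) : Ind F C.x (cut S D) := by
  refine ind_of_full one_le_degree C.x _ fun d L _ hL hS A A' hA hA' hF => ?_
  obtain ⟨l₀, hl₀⟩ := hL
  have hdD : ((d : ℕ) : ℕ∞) ≤ D := by
    rw [← (hS l₀ hl₀).2]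
    exact (hS l₀ hl₀).1.2
  refine (h (Option L) Unit _ _ ⟨?_, ?_⟩ A A' hA hA' hF).2
  · intro l hl
    by_contra h1
    apply hl
    have h2 : l ∉ L := fun h3 => h1 (hS l h3).1.1
    ext i j
    rcases i with i | i <;> rcases j with j | j
    · change (unv degree L).N l i j = 0
      rcases i with _ | i <;> rcases j with _ | j <;> simp [unv]
      rintro rfl
      exact h2 i.2
    · rfl
    · rfl
    · rfl
  · intro i j
    refine le_trans ?_ hdD
    rw [Nat.cast_le]
    have hLd : ∀ l : L, degree (l : Generator) = d := fun l => (hS l l.2).2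
    rcases i with (_ | i) | i <;> rcases j with (_ | j) | j <;>
      simp [Mot.sum, pur, unv, hLd]

/-- the equivalences -/
theorem tfae {F : Subfield ℂ} (hF : Alg F) (C : Comparison) (S : Set Generator) (D : ℕ∞) :
    List.TFAE [NotLinear F S D, Generated F C S D, NoSmallerTorsor F C S D,
      FullyFaithful F C S D] := by
  tfae_have 1 → 2 := fun h => generated_of_ind hF C S D (ind_of_notLinear hF C S D h)
  tfae_have 2 → 3 := torsor_of_generated C S D
  tfae_have 3 → 4 := full_of_torsor C S D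
  tfae_have 4 → 1 := fun h => notLinear_of_ind C S D (ind_of_full' C S D h)
  tfae_finish

end Pool.Agent.H56F
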