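import Mathlib
import Pool.Agent.H56F.Cmp

/-!
# The field of all algebraic numbers, and its real subfield
-/

set_option autoImplicit false

namespace Pool.Agent.H56F

open Pool.Agent.H56P

/-- the field of all algebraic numbers in `ℂ` -/
noncomputable def Qbar : Subfield ℂ := (algebraicClosure ℚ ℂ).toSubfield

/-- the field of all real algebraic numbers -/
noncomputable def RealQbar : Subfield ℂ := Qbar ⊓ Complex.ofRealHom.fieldRange

theorem mem_Qbar (z : ℂ) : z ∈ Qbar ↔ IsAlgebraic ℚ z := mem_algebraicClosure_iff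

theorem alg_Qbar : Alg Qbar := fun z hz => (mem_Qbar z).1 hz

theorem mem_RealQbar (z : ℂ) : z ∈ RealQbar ↔ IsAlgebraic ℚ z ∧ ∃ r : ℝ, (r : ℂ) = z := by
  rw [RealQbar, Subfield.mem_inf, mem_Qbar]
  rfl

theorem alg_RealQbar : Alg RealQbar := fun z hz => ((mem_RealQbar z).1 hz).1

/-- `1`, `π ^ n`, `ζ(n)` are linearly independent over the field of all algebraic numbers, for the
odd `n ≤ D` in `S` -/
def Independent (S : Set Generator) (D : ℕ∞) : Prop :=
  ∀ k : ℕ, .inr k ∈ S → ((2 * k + 3 : ℕ) : ℕ∞) ≤ D → ∀ a b c : ℂ, IsAlgebraic ℚ a →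
    IsAlgebraic ℚ b → IsAlgebraic ℚ c →
    a + b * (Real.pi : ℂ) ^ (2 * k + 3) + c * (zeta (2 * k + 3) : ℂ) = 0 → a = 0 ∧ b = 0 ∧ c = 0

/-- `ζ(n)` is transcendental for the odd `n ≤ D` in `S` -/
def OddTranscendental (S : Set Generator) (D : ℕ∞) : Prop :=
  ∀ k : ℕ, .inr k ∈ S → ((2 * k + 3 : ℕ) : ℕ∞) ≤ D → Transcendental ℚ (zeta (2 * k + 3))

theorem two_I_alg : IsAlgebraic ℚ (2 * Complex.I) :=
  (isAlgebraic_natCast 2).mul Pool.Agent.H340R2.LW.isAlgebraic_I

theorem pi_pow_transc (n : ℕ) (hn : n ≠ 0) : ¬ IsAlgebraic ℚ ((Real.pi : ℂ) ^ n) := by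
  intro h
  exact Pool.Agent.H340R2.LW.transcendental_pi_complex (h.of_pow (Nat.pos_of_ne_zero hn))

theorem notLinear_iff (S : Set Generator) (D : ℕ∞) : NotLinear Qbar S D ↔ Independent S D := by
  have hI : (2 * Complex.I : ℂ) ≠ 0 := mul_ne_zero two_ne_zero Complex.I_ne_zero
  have hw : ∀ n : ℕ, (2 * Real.pi * Complex.I : ℂ) ^ n = (2 * Complex.I) ^ n * (Real.pi : ℂ) ^ n := by
    intro n
    rw [← mul_pow]
    ring_nf
  constructor
  · intro h k hk hkD a b c ha hb hc habc
    have hc0 : c = 0 := by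
      by_contra hc0
      refine h k hk hkD (-a / c) ((mem_Qbar _).2 ?_) (-b / (c * (2 * Complex.I) ^ (2 * k + 3)))
        ((mem_Qbar _).2 ?_) ?_
      · rw [div_eq_mul_inv]
        exact ha.neg.mul hc.inv
      · rw [div_eq_mul_inv]
        exact hb.neg.mul (hc.mul (two_I_alg.pow _)).inv
      · rw [hw]
        have h2 : (2 * Complex.I : ℂ) ^ (2 * k + 3) ≠ 0 := pow_ne_zero _ hI
        set J : ℂ := (2 * Complex.I : ℂ) ^ (2 * k + 3) with hJ
        set P : ℂ := (Real.pi : ℂ) ^ (2 * k + 3) with hP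
        set Z : ℂ := (zeta (2 * k + 3) : ℂ) with hZ
        have h3 : (Z - (-a / c + -b / (c * J) * (J * P))) * c = 0 := by
          have h4 : (Z - (-a / c + -b / (c * J) * (J * P))) * c = a + b * P + c * Z := by
            field_simp
            ring
          rw [h4, habc]
        exact sub_eq_zero.1 ((mul_eq_zero.1 h3).resolve_right hc0)
    have hb0 : b = 0 := by
      by_contra hb0
      rw [hc0, zero_mul, add_zero] at habc
      apply pi_pow_transc (2 * k + 3) (by omega)
      have h5 : (Real.pi : ℂ) ^ (2 * k + 3) = -a * b⁻¹ := by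
        field_simp
        linear_combination habc
      rw [h5]
      exact ha.neg.mul hb.inv
    refine ⟨?_, hb0, hc0⟩
    rw [hc0, hb0] at habc
    simpa using habc
  · intro h k hk hkD a ha b hb hz
    have h1 := h k hk hkD a (b * (2 * Complex.I) ^ (2 * k + 3)) (-1) ((mem_Qbar _).1 ha)
      (((mem_Qbar _).1 hb).mul (two_I_alg.pow _)) (isAlgebraic_one.neg) (by
        rw [hz, hw]
        ring)
    exact (neg_ne_zero.2 one_ne_zero) h1.2.2

theorem zeta_transc_iff (s : ℕ) : IsAlgebraic ℚ (zeta s) ↔ IsAlgebraic ℚ (zeta s : ℂ) := by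
  have h : (zeta s : ℂ) = algebraMap ℝ ℂ (zeta s) := rfl
  rw [h, isAlgebraic_algebraMap_iff (algebraMap ℝ ℂ).injective]

theorem notLinear_real_iff (S : Set Generator) (D : ℕ∞) :
    NotLinear RealQbar S D ↔ OddTranscendental S D := by
  constructor
  · intro h k hk hkD halg
    refine h k hk hkD (zeta (2 * k + 3) : ℂ) ((mem_RealQbar _).2
      ⟨(zeta_transc_iff _).1 halg, _, rfl⟩) 0 RealQbar.zero_mem ?_
    rw [zero_mul, add_zero]
  · intro h k hk hkD a ha b hb hz
    obtain ⟨ha1, a', ha'⟩ := (mem_RealQbar _).1 ha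
    obtain ⟨hb1, b', hb'⟩ := (mem_RealQbar _).1 hb
    apply h k hk hkD
    rw [zeta_transc_iff]
    have hpow : (2 * Real.pi * Complex.I : ℂ) ^ (2 * k + 3) =
        (((2 * Real.pi) ^ (2 * k + 3) * (-1) ^ (k + 1) : ℝ) : ℂ) * Complex.I := by
      rw [mul_pow, show 2 * k + 3 = 2 * (k + 1) + 1 by ring, pow_succ Complex.I, pow_mul Complex.I,
        Complex.I_sq]
      push_cast
      ring
    have him := congrArg Complex.im hz
    rw [hpow, ← ha', ← hb', Complex.ofReal_im, Complex.add_im, Complex.ofReal_im, ← mul_assoc,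
      ← Complex.ofReal_mul, Complex.im_ofReal_mul, Complex.I_im, mul_one, zero_add] at him
    have hne : (2 * Real.pi) ^ (2 * k + 3) * (-1 : ℝ) ^ (k + 1) ≠ 0 :=
      mul_ne_zero (pow_ne_zero _ (by positivity)) (pow_ne_zero _ (by norm_num))
    have hb0 : b' = 0 := (mul_eq_zero.1 him.symm).resolve_right hne
    rw [hz, ← hb', hb0, Complex.ofReal_zero, zero_mul, add_zero]
    exact ha1

theorem tfae_Qbar (C : Comparison) (S : Set Generator) (D : ℕ∞) :
    List.TFAE [Independent S D, Generated Qbar C S D, NoSmallerTorsor Qbar C S D,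
      FullyFaithful Qbar C S D] := by
  rw [← notLinear_iff]
  exact tfae alg_Qbar C S D

theorem tfae_real (C : Comparison) (S : Set Generator) (D : ℕ∞) :
    List.TFAE [OddTranscendental S D, Generated RealQbar C S D, NoSmallerTorsor RealQbar C S D,
      FullyFaithful RealQbar C S D] := by
  rw [← notLinear_real_iff]
  exact tfae alg_RealQbar C S D

theorem independent_of (S : Set Generator) (D : ℕ∞) (h : D ≤ 2 ∨ ∀ l ∈ S, ∃ p, l = .inl p) :
    Independent S D := by
  intro k hk hkD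
  exfalso
  rcases h with h | h
  · have h1 : ((2 * k + 3 : ℕ) : ℕ∞) ≤ ((2 : ℕ) : ℕ∞) := hkD.trans h
    rw [Nat.cast_le] at h1
    omega
  · obtain ⟨p, hp⟩ := h _ hk
    simp at hp

theorem nonempty_comparison : Nonempty Comparison := by
  have henc : Encodable Generator := Encodable.ofCountable _
  set τ : ℂˣ := Units.mk0 (1 / (2 * Real.pi * Complex.I)) (one_div_ne_zero two_pi_ne) with hτ
  set z : Generator → ℂ := fun l => match l with
    | .inl p => Real.log p * τ
    | .inr k => zeta (2 * k + 3) * (τ : ℂ) ^ (2 * k + 3) with hz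
  have h1 := pnt_tau one_le_degree z τ
  refine ⟨⟨pnt one_le_degree z τ, ⟨1, one_ne_zero, ?_⟩, fun k => ⟨1, 0, one_ne_zero, ?_⟩,
    fun p => ⟨1, 0, one_ne_zero, ?_⟩⟩⟩
  · rw [h1, hτ, Units.val_mk0, Rat.cast_one]
  · rw [h1, pnt_per, hz]
    push_cast
    ring
  · rw [h1, pnt_per, hz]
    push_cast
    ring

end Pool.Agent.H56F
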